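import Pool.Agent.N649.WL.Prod

set_option autoImplicit false

/-!
# Transfer of the dichotomy along an invariant coding
-/

namespace Pool.Agent.N649.WL

open Set MeasureTheory

theorem dc_code {Z Z' : Type*} [TopologicalSpace Z] [PolishSpace Z] [MeasurableSpace Z]
    [BorelSpace Z] [TopologicalSpace Z'] [PolishSpace Z'] [MeasurableSpace Z'] [BorelSpace Z']
    {cod : Z → Z'} (hc : Continuous cod) (hi : Function.Injective cod)
    {R : Z → Z → Prop} {R' : Z' → Z' → Prop} (h : ∀ p q, R' (cod p) (cod q) ↔ R p q)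
    (hsat : ∀ p y, R' (cod p) y → ∃ q, cod q = y)
    (hs : ∀ x y, R' x y → R' y x) (ht : ∀ x y z, R' x y → R' y z → R' x z)
    {C : Set Z} (hC : MeasurableSet C) (hinv : ∀ p ∈ C, ∀ q, R p q → q ∈ C)
    (hD : MeasurableSet (cod '' C) → (∀ x ∈ cod '' C, ∀ y, R' x y → y ∈ cod '' C) →
      (∃ f : ℕ → Z', ∀ x ∈ cod '' C, ∃ n, R' (f n) x) ∨
      ∃ g : (ℕ → Bool) → Z', Measurable g ∧ (∀ b, g b ∈ cod '' C) ∧
        ∀ b b', R' (g b) (g b') → b = b') : Dc R C := by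
  have emb : MeasurableEmbedding cod := hc.measurableEmbedding hi
  rcases hD (emb.measurableSet_image.2 hC) (by
    rintro _ ⟨p, hp, rfl⟩ y hy
    obtain ⟨q, rfl⟩ := hsat p y hy
    exact ⟨q, hinv p hp q ((h p q).1 hy), rfl⟩) with ⟨f, hf⟩ | ⟨g, g1, g2, g3⟩
  · left
    let W : Set ℕ := {n | ∃ p ∈ C, R' (f n) (cod p)}
    have hW : ∀ n : W, ∃ p ∈ C, R' (f n) (cod p) := fun n => n.2
    choose c hc1 hc2 using hW
    refine ⟨range c, ?_, countable_range c, fun p hp => ?_⟩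
    · rintro _ ⟨n, rfl⟩
      exact hc1 n
    · obtain ⟨n, hn⟩ := hf (cod p) ⟨p, hp, rfl⟩
      have hnW : n ∈ W := ⟨p, hp, hn⟩
      exact ⟨c ⟨n, hnW⟩, ⟨_, rfl⟩, (h _ _).1 (ht _ _ _ (hs _ _ hn) (hc2 ⟨n, hnW⟩))⟩
  · right
    have hr : ∀ b, g b ∈ range cod := fun b => by
      obtain ⟨p, -, h⟩ := g2 b
      exact ⟨p, h⟩
    let k : (ℕ → Bool) → Z := fun b => emb.equivRange.symm ⟨g b, hr b⟩
    have hh : ∀ b, cod (k b) = g b := by
      intro b
      have h1 := emb.equivRange.apply_symm_apply ⟨g b, hr b⟩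
      have h2 : (emb.equivRange (k b) : Z') = cod (k b) := by
        rw [emb.equivRange_apply]
      rw [← h2]
      exact congrArg Subtype.val h1
    refine ⟨k, emb.equivRange.symm.measurable.comp (g1.subtype_mk), fun b => ?_,
      fun b b' hb hL => ?_⟩
    · obtain ⟨p, hp, hpb⟩ := g2 b
      have : k b = p := hi ((hh b).trans hpb.symm)
      rw [this]
      exact hp
    · refine hb (g3 b b' ?_)
      rw [← hh b, ← hh b']
      exact (h _ _).2 hL

/-- From a continuous to a Borel map. -/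
theorem dc_weak {Z : Type*} [TopologicalSpace Z] [MeasurableSpace Z] [BorelSpace Z]
    {R : Z → Z → Prop} (hs : ∀ x y, R x y → R y x) (ht : ∀ x y z, R x y → R y z → R x z)
    {C : Set Z} (h : (∃ f : ℕ → Z, ∀ x ∈ C, ∃ n, R (f n) x) ∨
      ∃ g : (ℕ → Bool) → Z, Continuous g ∧ (∀ b, g b ∈ C) ∧ ∀ b b', R (g b) (g b') → b = b') :
    Dc R C := by
  rcases h with ⟨f, hf⟩ | ⟨g, g1, g2, g3⟩
  · left
    let W : Set ℕ := {n | ∃ p ∈ C, R (f n) p}
    have hW : ∀ n : W, ∃ p ∈ C, R (f n) p := fun n => n.2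
    choose c hc1 hc2 using hW
    refine ⟨range c, ?_, countable_range c, fun p hp => ?_⟩
    · rintro _ ⟨n, rfl⟩
      exact hc1 n
    · obtain ⟨n, hn⟩ := hf p hp
      have hnW : n ∈ W := ⟨p, hp, hn⟩
      exact ⟨c ⟨n, hnW⟩, ⟨_, rfl⟩, ht _ _ _ (hs _ _ hn) (hc2 ⟨n, hnW⟩)⟩
  · exact Or.inr ⟨g, g1.measurable, g2, fun b b' hb hL => hb (g3 b b' hL)⟩

/-- The converse direction of the formulation. -/
theorem dc_strong {Z : Type*} [MeasurableSpace Z] {R : Z → Z → Prop}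
    (hs : ∀ x y, R x y → R y x) {C : Set Z} (z0 : Z) (h : Dc R C) :
    (∃ f : ℕ → Z, ∀ x ∈ C, ∃ n, R (f n) x) ∨
      ∃ g : (ℕ → Bool) → Z, Measurable g ∧ (∀ b, g b ∈ C) ∧ ∀ b b', R (g b) (g b') → b = b' := by
  rcases h with ⟨S, h1, h2, h3⟩ | ⟨g, g1, g2, g3⟩
  · left
    rcases S.eq_empty_or_nonempty with he | hne
    · refine ⟨fun _ => z0, fun x hx => ?_⟩
      obtain ⟨y, hy, -⟩ := h3 x hx
      rw [he] at hy
      exact hy.elim
    · obtain ⟨f, hf⟩ := h2.exists_eq_range hne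
      refine ⟨f, fun x hx => ?_⟩
      obtain ⟨y, hy, hxy⟩ := h3 x hx
      rw [hf] at hy
      obtain ⟨n, rfl⟩ := hy
      exact ⟨n, hs _ _ hxy⟩
  · right
    exact ⟨g, g1, g2, fun b b' hL => by
      by_contra hb
      exact g3 b b' hb hL⟩

end Pool.Agent.N649.WL
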