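import Pool.Agent.N649.WL.Prod

set_option autoImplicit false

/-!
# Wreath products of groups
-/

namespace Pool.Agent.N649.WL

open Set MeasureTheory

/-- The orbit equivalence relation. -/
def Orb (G : Type) {X : Type} [SMul G X] (x x' : X) : Prop := ∃ g : G, g • x = x'

theorem orb_equiv (G : Type) {X : Type} [Group G] [MulAction G X] :
    Equivalence (Orb G : X → X → Prop) where
  refl x := ⟨1, one_smul _ _⟩
  symm := by
    rintro x x' ⟨g, rfl⟩
    exact ⟨g⁻¹, inv_smul_smul _ _⟩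
  trans := by
    rintro x x' x'' ⟨g, rfl⟩ ⟨g', rfl⟩
    exact ⟨g' * g, mul_smul _ _ _⟩

theorem orb_ana (G : Type) {X : Type} [TopologicalSpace G] [Group G] [PolishSpace G]
    [MeasurableSpace G] [BorelSpace G] [TopologicalSpace X] [PolishSpace X] [MeasurableSpace X]
    [BorelSpace X] [MulAction G X] [MeasurableSMul₂ G X] :
    AnalyticSet {q : X × X | Orb G q.1 q.2} := by
  have hm : Measurable fun p : G × X => (p.2, p.1 • p.2) :=
    measurable_snd.prodMk (measurable_fst.smul measurable_snd)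
  have : {q : X × X | Orb G q.1 q.2} = (fun p : G × X => (p.2, p.1 • p.2)) '' Set.univ := by
    ext ⟨x, x'⟩
    constructor
    · rintro ⟨g, hg⟩
      exact ⟨(g, x), trivial, Prod.ext rfl hg⟩
    · rintro ⟨⟨g, x1⟩, -, h⟩
      have h1 : x1 = x := congrArg Prod.fst h
      have h2 : g • x1 = x' := congrArg Prod.snd h
      exact ⟨g, by rw [← h2, h1]⟩
  rw [this]
  exact MeasurableSet.univ.analyticSet_image hm

/-- `h` acts on the structures and on the places. -/
def IH (H : Type) {Y J : Type} [SMul H Y] [SMul H J] (σ : Equiv.Perm J) (y y' : Y) : Prop :=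
  ∃ h : H, (∀ j, σ j = h • j) ∧ h • y = y'

/-- The orbit relation of the wreath product of `G` and `H` on the labelled structures. -/
def WOrb (G H : Type) {X Y J : Type} [SMul G X] [SMul H Y] [SMul H J]
    (p q : Y × (J → X)) : Prop :=
  ∃ (h : H) (g : J → G), q.1 = h • p.1 ∧ ∀ j, q.2 (h • j) = g j • p.2 j

theorem worb_iff (G H : Type) {X Y J : Type} [SMul G X] [Group H] [MulAction H Y]
    [MulAction H J] (p q : Y × (J → X)) : WOrb G H p q ↔ LE (IH H) (Orb G) p q := by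
  constructor
  · rintro ⟨h, g, h1, h2⟩
    refine ⟨MulAction.toPerm h, ⟨h, fun j => rfl, h1.symm⟩, fun j => ⟨g j, ?_⟩⟩
    exact (h2 j).symm
  · rintro ⟨σ, ⟨h, h1, h2⟩, h3⟩
    choose g hg using h3
    refine ⟨h, g, h2.symm, fun j => ?_⟩
    rw [← h1 j, hg]

/-- Orbits of `H` on the structures with colours in `ℕ`. -/
def COrb (H : Type) {Y J : Type} [SMul H Y] [SMul H J] (p q : Y × (J → ℕ)) : Prop :=
  ∃ h : H, q.1 = h • p.1 ∧ ∀ j, q.2 (h • j) = p.2 j

theorem corb_iff (H : Type) {Y J : Type} [Group H] [MulAction H Y] [MulAction H J]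
    (p q : Y × (J → ℕ)) : COrb H p q ↔ LE (IH H) (· = ·) p q := by
  constructor
  · rintro ⟨h, h1, h2⟩
    exact ⟨MulAction.toPerm h, ⟨h, fun j => rfl, h1.symm⟩, fun j => (h2 j).symm⟩
  · rintro ⟨σ, ⟨h, h1, h2⟩, h3⟩
    refine ⟨h, h2.symm, fun j => ?_⟩
    rw [← h1 j, ← h3]

theorem dc_congr {Z : Type*} [MeasurableSpace Z] {R R' : Z → Z → Prop}
    (h : ∀ x y, R x y ↔ R' x y) {V : Set Z} (hV : Dc R V) : Dc R' V := by
  have : R = R' := funext fun x => funext fun y => propext (h x y)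
  rw [← this]
  exact hV

/-- Wreath products. -/
theorem wreath {G H X Y J : Type} [TopologicalSpace G] [Group G] [PolishSpace G]
    [MeasurableSpace G] [BorelSpace G] [TopologicalSpace X] [PolishSpace X] [MeasurableSpace X]
    [BorelSpace X] [MulAction G X] [MeasurableSMul₂ G X] [Group H] [TopologicalSpace Y]
    [PolishSpace Y] [MeasurableSpace Y] [BorelSpace Y] [MulAction H Y] [Countable J] [Nonempty J]
    [MulAction H J] (Z : Set X)
    (hX : ∀ C : Set X, MeasurableSet C → C ⊆ Z → (∀ x ∈ C, ∀ x', Orb G x x' → x' ∈ C) →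
      Dc (Orb G) C) (K : Set Y)
    (hY : ∀ C : Set (Y × (J → ℕ)), MeasurableSet C → (∀ p ∈ C, p.1 ∈ K) →
      (∀ p ∈ C, ∀ q, COrb H p q → q ∈ C) → Dc (COrb H) C)
    {A : Set (Y × (J → X))} (hA : MeasurableSet A) (hK : ∀ p ∈ A, p.1 ∈ K)
    (hZ : ∀ p ∈ A, ∀ j, p.2 j ∈ Z)
    (hinv : ∀ p ∈ A, ∀ q, WOrb G H p q → q ∈ A) : Dc (WOrb G H) A := by
  rcases A.eq_empty_or_nonempty with hAe | ⟨a0, ha0⟩
  · left
    exact ⟨∅, empty_subset _, countable_empty, fun x hx => by rw [hAe] at hx; exact hx.elim⟩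
  obtain ⟨j0⟩ := (inferInstance : Nonempty J)
  refine dc_congr (fun p q => (worb_iff G H p q).symm) ?_
  refine main (IH H) (fun y => ⟨1, fun j => (one_smul _ _).symm, one_smul _ _⟩)
    (orb_equiv G) (orb_ana G) Z hX {q | q.1 ∈ K} (fun C h1 h2 h3 => ?_) (a0.2 j0) hA hZ
    (fun p hp κ _ _ => hK p hp) fun p hp q h => hinv p hp q ((worb_iff G H p q).2 h)
  exact dc_congr (fun p q => corb_iff H p q) (hY C h1 h2 fun p hp q h =>
    h3 p hp q ((corb_iff H p q).1 h))

end Pool.Agent.N649.WL
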