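import Pool.Agent.N649.WL.Tup
import Pool.Agent.N649.WL.Wr
import Pool.Agent.H533R2.VS.All2
import Pool.Agent.Y558.MC.Out

set_option autoImplicit false

/-!
# Instances: sparse structures, sorted structures
-/

namespace Pool.Agent.N649.WL

open Set MeasureTheory
open Pool.Agent.H533R2.VO (RS RIso VC Dich)
open Pool.Agent.H899R2.VP (gaifman HasCliqueSubdivision)

variable {a : ℕ → ℕ}

theorem gaifman_split {M : RS a} {κ : Tp a → ℕ} (h : ∀ i v, M i v = true ↔ κ ⟨i, v⟩ ≠ 0) :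
    gaifman (split κ) = gaifman M := by
  ext x y
  constructor
  · rintro ⟨hne, k, v, h1, h2, h3⟩
    refine ⟨hne, k.unpair.1, v, (h _ _).2 ?_, h2, h3⟩
    simp only [split, decide_eq_true_eq] at h1
    rw [h1]
    exact Nat.succ_ne_zero _
  · rintro ⟨hne, i, v, h1, h2, h3⟩
    have h4 := (h i v).1 h1
    obtain ⟨n, hn⟩ := Nat.exists_eq_succ_of_ne_zero h4
    obtain ⟨v', hv'⟩ := tup_exists (⟨i, v⟩ : Tp a) n
    have key : ∀ t : Tp a, t = ⟨i, v⟩ → (x ∈ range t.2 ∧ y ∈ range t.2) := by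
      rintro _ rfl
      exact ⟨h2, h3⟩
    obtain ⟨k1, k2⟩ := key _ hv'
    refine ⟨hne, Nat.pair i n, v', ?_, k1, k2⟩
    have e1 : κ ⟨(Nat.unpair (Nat.pair i n)).1, v'⟩ = n + 1 := (congrArg κ hv').trans hn
    simp only [split, decide_eq_true_eq]
    rw [e1, Nat.unpair_pair]

/-- The sparse class. -/
def Sparse (M : RS a) : Prop := ¬ HasCliqueSubdivision (gaifman M)

theorem dw_sparse : DW (Sparse : RS a → Prop) :=
  dw_of_vc (Pool.Agent.H533R2.VS.vs_plain _ _ (Pool.Agent.H533R2.VS.vs_sparse a))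

section

variable {X : Type*} [TopologicalSpace X] [PolishSpace X] [MeasurableSpace X] [BorelSpace X]

theorem labelled_sparse {E : X → X → Prop}
    (hE : Equivalence E) (hEa : AnalyticSet {q : X × X | E q.1 q.2}) (Z : Set X)
    (hX : ∀ C : Set X, MeasurableSet C → C ⊆ Z → (∀ x ∈ C, ∀ x', E x x' → x' ∈ C) → Dc E C)
    {A : Set (RS a × (Tp a → X))} (hA : MeasurableSet A)
    (hAW : ∀ p ∈ A, Sparse p.1)
    (hZ : ∀ p ∈ A, ∀ i v, p.1 i v = true → p.2 ⟨i, v⟩ ∈ Z)
    (hinv : ∀ p ∈ A, ∀ q, LT E p q → q ∈ A) : Dc (LT E) A := by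
  refine labelledT (W := Sparse) dw_sparse hE hEa Z hX hA (fun p hp κ h _ => ?_) hZ hinv
  show ¬ HasCliqueSubdivision (gaifman (split κ))
  rw [gaifman_split h]
  exact hAW p hp

end

open Pool.Agent.Y558.MC (XS SO IsoS outS)

/-- the code of a sorted structure with colours -/
def codS (p : XS × (ℕ → ℕ)) : XS :=
  (p.1.1, p.1.2.1, fun j m => if j % 2 = 0 then p.1.2.2 (j / 2) m else decide (p.2 m = j / 2))

theorem codS_even (p : XS × (ℕ → ℕ)) (j m : ℕ) : (codS p).2.2 (2 * j) m = p.1.2.2 j m := by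
  show (if (2 * j) % 2 = 0 then p.1.2.2 (2 * j / 2) m else decide (p.2 m = 2 * j / 2)) = _
  rw [if_pos (by omega), show 2 * j / 2 = j by omega]

theorem codS_odd (p : XS × (ℕ → ℕ)) (j m : ℕ) :
    (codS p).2.2 (2 * j + 1) m = decide (p.2 m = j) := by
  show (if (2 * j + 1) % 2 = 0 then p.1.2.2 ((2 * j + 1) / 2) m else
    decide (p.2 m = (2 * j + 1) / 2)) = _
  rw [if_neg (by omega), show (2 * j + 1) / 2 = j by omega]

theorem codS_inj : Function.Injective codS := by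
  rintro p q h
  have h1 : p.1.1 = q.1.1 := by
    have := congrArg (fun x : XS => x.1) h
    exact this
  have h2 : p.1.2.1 = q.1.2.1 := by
    have := congrArg (fun x : XS => x.2.1) h
    exact this
  have h3 : p.1.2.2 = q.1.2.2 := by
    funext j m
    rw [← codS_even p, ← codS_even q, h]
  have h4 : p.2 = q.2 := by
    funext m
    have := codS_odd q (q.2 m) m
    rw [← h, codS_odd] at this
    simpa using this
  exact Prod.ext (Prod.ext h1 (Prod.ext h2 h3)) h4

theorem codS_cont : Continuous codS := by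
  refine (continuous_fst.comp continuous_fst).prodMk
    (((continuous_fst.comp continuous_snd).comp continuous_fst).prodMk
      (continuous_pi fun j => continuous_pi fun m => ?_))
  by_cases h : j % 2 = 0
  · simp only [h, if_true]
    fun_prop
  · simp only [h, if_false]
    exact (continuous_of_discreteTopology (f := fun k : ℕ => decide (k = j / 2))).comp
      ((continuous_apply m).comp continuous_snd)

theorem codS_iso (σ : Equiv.Perm ℕ) (p q : XS × (ℕ → ℕ)) :
    IsoS σ (codS p) (codS q) ↔ IsoS σ p.1 q.1 ∧ ∀ n, p.2 n = q.2 (σ n) := by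
  constructor
  · rintro ⟨h1, h2, h3⟩
    refine ⟨⟨h1, h2, fun j m => ?_⟩, fun n => ?_⟩
    · have := h3 (2 * j) m
      rw [codS_even, codS_even] at this
      exact this
    · have := h3 (2 * (p.2 n) + 1) n
      rw [codS_odd, codS_odd] at this
      simp only [decide_true, decide_eq_true_eq] at this
      exact this.symm
  · rintro ⟨⟨h1, h2, h3⟩, h4⟩
    refine ⟨h1, h2, fun j m => ?_⟩
    show (if j % 2 = 0 then q.1.2.2 (j / 2) (σ m) else decide (q.2 (σ m) = j / 2)) =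
      (if j % 2 = 0 then p.1.2.2 (j / 2) m else decide (p.2 m = j / 2))
    rw [h3, h4]

theorem isoS_symm {σ : Equiv.Perm ℕ} {x y : XS} (h : IsoS σ x y) : IsoS σ.symm y x := by
  refine ⟨fun i m n => ?_, fun p m => ?_, fun j m => ?_⟩
  · rw [← h.1, Equiv.apply_symm_apply, Equiv.apply_symm_apply]
  · rw [← h.2.1, Equiv.apply_symm_apply]
  · rw [← h.2.2, Equiv.apply_symm_apply]

theorem isoS_trans {σ τ : Equiv.Perm ℕ} {x y z : XS} (h : IsoS σ x y) (h' : IsoS τ y z) :
    IsoS (σ.trans τ) x z := by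
  refine ⟨fun i m n => ?_, fun p m => ?_, fun j m => ?_⟩
  · rw [← h.1, ← h'.1]; rfl
  · rw [← h.2.1, ← h'.2.1]; rfl
  · rw [← h.2.2, ← h'.2.2]; rfl

theorem so_iff (x : XS) (y : XS) (h1 : x.1 = y.1) (h2 : x.2.1 = y.2.1) (h : SO x) : SO y := by
  refine ⟨fun m => ?_, fun m => ?_, fun p m n k => ?_, fun p m n => ?_, fun i p q => ?_,
    fun i p q => ?_⟩
  · rw [← h2]; exact h.cover m
  · rw [← h1]; exact h.irr m
  · rw [← h1, ← h2]; exact h.tr p m n k
  · rw [← h1, ← h2]; exact h.tot p m n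
  · rw [← h1, ← h2]; exact h.fst i p q
  · rw [← h1, ← h2]; exact h.snd i p q

theorem bs3 : BorelSpace (ℕ → ℕ → ℕ → Bool) := by
  have : BorelSpace (ℕ → Bool) := inferInstance
  have h2 : BorelSpace (ℕ → ℕ → Bool) := inferInstance
  exact Pi.borelSpace

theorem bsS : BorelSpace XS := by
  have := bs3
  have h2 : BorelSpace ((ℕ → ℕ → Bool) × (ℕ → ℕ → Bool)) := inferInstance
  exact Prod.borelSpace

theorem bsSN : BorelSpace (XS × (ℕ → ℕ)) := by
  have := bsS
  exact Prod.borelSpace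

theorem cmS : TopologicalSpace.IsCompletelyMetrizableSpace (XS × (ℕ → ℕ)) := inferInstance

theorem plSN : PolishSpace (XS × (ℕ → ℕ)) := by
  have := cmS
  have h : SecondCountableTopology (XS × (ℕ → ℕ)) := inferInstance
  exact {}

theorem dc_sorted {C : Set (XS × (ℕ → ℕ))} (hC : MeasurableSet C) (hCV : ∀ p ∈ C, SO p.1)
    (hinv : ∀ p ∈ C, ∀ q, LE IsoS (· = ·) p q → q ∈ C) : Dc (LE IsoS (· = ·)) C := by
  have i1 := bsS
  have i2 := bsSN
  have i3 := plSN
  refine dc_code codS_cont codS_inj (R' := fun x y => ∃ σ, IsoS σ x y) (fun p q => ?_) ?_ ?_ ?_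
    hC hinv fun h1 h2 => ?_
  · constructor
    · rintro ⟨σ, h⟩
      exact ⟨σ, (codS_iso σ p q).1 h⟩
    · rintro ⟨σ, h⟩
      exact ⟨σ, (codS_iso σ p q).2 h⟩
  · rintro p y ⟨σ, h⟩
    refine ⟨((y.1, y.2.1, fun j m => y.2.2 (2 * j) m), fun m => p.2 (σ.symm m)), ?_⟩
    refine Prod.ext rfl (Prod.ext rfl (funext fun j => funext fun m => ?_))
    show (if j % 2 = 0 then y.2.2 (2 * (j / 2)) m else decide (p.2 (σ.symm m) = j / 2)) = y.2.2 j m
    by_cases hj : j % 2 = 0
    · rw [if_pos hj, show 2 * (j / 2) = j by omega]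
    · rw [if_neg hj]
      have h3 := h.2.2 j (σ.symm m)
      rw [Equiv.apply_symm_apply] at h3
      rw [h3]
      show _ = (if j % 2 = 0 then p.1.2.2 (j / 2) (σ.symm m) else
        decide (p.2 (σ.symm m) = j / 2))
      rw [if_neg hj]
  · rintro x y ⟨σ, h⟩
    exact ⟨_, isoS_symm h⟩
  · rintro x y z ⟨σ, h⟩ ⟨τ, h'⟩
    exact ⟨_, isoS_trans h h'⟩
  · rcases outS (codS '' C) h1 (by
      rintro _ ⟨p, hp, rfl⟩
      exact so_iff p.1 _ rfl rfl (hCV p hp)) (fun x hx y σ h => h2 x hx y ⟨σ, h⟩) with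
      ⟨f, hf⟩ | ⟨g, g1, g2, g3⟩
    · exact Or.inl ⟨f, hf⟩
    · exact Or.inr ⟨g, g1.measurable, g2, g3⟩

section

variable {X : Type*} [TopologicalSpace X] [PolishSpace X] [MeasurableSpace X] [BorelSpace X]

theorem labelled_sorted {E : X → X → Prop}
    (hE : Equivalence E) (hEa : AnalyticSet {q : X × X | E q.1 q.2}) (Z : Set X)
    (hX : ∀ C : Set X, MeasurableSet C → C ⊆ Z → (∀ x ∈ C, ∀ x', E x x' → x' ∈ C) → Dc E C)
    {A : Set (XS × (ℕ → X))} (hA : MeasurableSet A) (hAS : ∀ p ∈ A, SO p.1)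
    (hZ : ∀ p ∈ A, ∀ n, p.2 n ∈ Z)
    (hinv : ∀ p ∈ A, ∀ q, LE IsoS E p q → q ∈ A) : Dc (LE IsoS E) A := by
  have i1 := bsS
  rcases A.eq_empty_or_nonempty with hAe | ⟨a0, ha0⟩
  · left
    exact ⟨∅, empty_subset _, countable_empty, fun x hx => by rw [hAe] at hx; exact hx.elim⟩
  exact main IsoS (fun y => ⟨fun i m n => rfl, fun p m => rfl, fun j m => rfl⟩) hE hEa Z hX
    {q | SO q.1} (fun C h1 h2 h3 => dc_sorted h1 h2 h3) (a0.2 0) hA hZ
    (fun p hp _ _ _ => hAS p hp) hinv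

end

end Pool.Agent.N649.WL
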