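import Pool.Agent.H579R3.SE

set_option autoImplicit false

/-!
# Labelling by the classes of an analytic equivalence relation

`Y` is a space of structures with a countable set `J` of places, and `E` an analytic equivalence
relation on `X`. We consider the structures `y` in `Y` with a labelling `x : J → X` of the places,
the labels being read up to `E`. If the countable-or-perfect dichotomy holds for `E` and for the
structures with labels in `ℕ`, then it holds for the structures with labels in `X`.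
-/

namespace Pool.Agent.N649.WL

open Set MeasureTheory
open Pool.Agent.H579R3.SV (novikov' ana_inter interp silver polish_cantor not_countable meas_rel)

/-- Countably many classes of `R` meet `V`, or there is a Borel map from the Cantor space to `V`
with pairwise inequivalent values. -/
def Dc {Z : Type*} [MeasurableSpace Z] (R : Z → Z → Prop) (V : Set Z) : Prop :=
  (∃ S ⊆ V, S.Countable ∧ ∀ x ∈ V, ∃ y ∈ S, R x y) ∨
    ∃ h : (ℕ → Bool) → Z, Measurable h ∧ (∀ b, h b ∈ V) ∧ ∀ b b', b ≠ b' → ¬ R (h b) (h b')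

/-- Isomorphism of labelled structures, the labels being read up to `E`. -/
def LE {X Y J : Type*} (I : Equiv.Perm J → Y → Y → Prop) (E : X → X → Prop)
    (p q : Y × (J → X)) : Prop :=
  ∃ σ : Equiv.Perm J, I σ p.1 q.1 ∧ ∀ n, E (p.2 n) (q.2 (σ n))

/-- The two families list the same classes. -/
def JJ {X J : Type*} (E : X → X → Prop) (y z : J → X) : Prop :=
  (∀ i, ∃ j, E (y i) (z j)) ∧ ∀ j, ∃ i, E (y i) (z j)

theorem JJ_equiv {X J : Type*} {E : X → X → Prop} (hE : Equivalence E) :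
    Equivalence (JJ (J := J) E) where
  refl y := ⟨fun i => ⟨i, hE.refl _⟩, fun i => ⟨i, hE.refl _⟩⟩
  symm h := ⟨fun i => (h.2 i).imp fun _ h => hE.symm h, fun i => (h.1 i).imp fun _ h => hE.symm h⟩
  trans := by
    rintro x y z h h'
    refine ⟨fun i => ?_, fun j => ?_⟩
    · obtain ⟨j, hj⟩ := h.1 i
      obtain ⟨k, hk⟩ := h'.1 j
      exact ⟨k, hE.trans hj hk⟩
    · obtain ⟨k, hk⟩ := h'.2 j
      obtain ⟨i, hi⟩ := h.2 k
      exact ⟨i, hE.trans hi hk⟩

section

variable {X Y J : Type*} [TopologicalSpace X] [PolishSpace X] [MeasurableSpace X] [BorelSpace X]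
  [TopologicalSpace Y] [PolishSpace Y] [MeasurableSpace Y] [BorelSpace Y] [Countable J]
  [Nonempty J]

theorem JJ_meas {W : Type*} [MeasurableSpace W] {F : X → X → Prop}
    (hm : MeasurableSet {q : X × X | F q.1 q.2}) {f g : W → J → X}
    (hf : ∀ i, Measurable fun w => f w i) (hg : ∀ i, Measurable fun w => g w i) :
    MeasurableSet {w | JJ F (f w) (g w)} := by
  have h : ∀ i j, MeasurableSet {w | F (f w i) (g w j)} := fun i j => meas_rel hm (hf i) (hg j)
  have e : {w | JJ F (f w) (g w)} = (⋂ i, ⋃ j, {w | F (f w i) (g w j)}) ∩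
      ⋂ j, ⋃ i, {w | F (f w i) (g w j)} := by
    ext w
    simp [JJ]
  rw [e]
  exact (MeasurableSet.iInter fun i => MeasurableSet.iUnion fun j => h i j).inter
    (MeasurableSet.iInter fun j => MeasurableSet.iUnion fun i => h i j)

theorem swapY {E : X → X → Prop} (hEa : AnalyticSet {q : X × X | E q.1 q.2})
    {A : Set (Y × (J → X))} (hA : MeasurableSet A)
    (hinv : ∀ (p : Y) (y z : J → X), (∀ i, E (y i) (z i)) → (p, y) ∈ A → (p, z) ∈ A) :
    ∃ R : Set (X × X), MeasurableSet R ∧ {q : X × X | E q.1 q.2} ⊆ R ∧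
      ∀ (p : Y) (y z : J → X), (∀ i, (y i, z i) ∈ R) → (p, y) ∈ A → (p, z) ∈ A := by
  obtain ⟨e, he⟩ := exists_surjective_nat J
  have c : ∀ i, Continuous fun q : Y × (J → X) × (J → X) => (q.2.1 (e i), q.2.2 (e i)) :=
    fun i => by fun_prop
  have hD : MeasurableSet {q : Y × (J → X) × (J → X) | (q.1, q.2.1) ∈ A ∧ (q.1, q.2.2) ∉ A} := by
    have m1 : Measurable fun q : Y × (J → X) × (J → X) => (q.1, q.2.1) := by fun_prop
    have m2 : Measurable fun q : Y × (J → X) × (J → X) => (q.1, q.2.2) := by fun_prop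
    exact (m1 hA).inter (m2 hA.compl)
  obtain ⟨C, hC1, hC2, hC3⟩ := novikov' (S := fun i =>
    {q : Y × (J → X) × (J → X) | (q.1, q.2.1) ∈ A ∧ (q.1, q.2.2) ∉ A} ∩
      ((fun q : Y × (J → X) × (J → X) => (q.2.1 (e i), q.2.2 (e i))) ⁻¹' {q : X × X | E q.1 q.2}))
    (fun i => ana_inter hD.analyticSet (hEa.preimage (c i))) (by
      rw [eq_empty_iff_forall_notMem]
      intro q hq
      rw [mem_iInter] at hq
      refine (hq 0).1.2 (hinv _ _ _ (fun i => ?_) (hq 0).1.1)
      obtain ⟨n, rfl⟩ := he i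
      exact (hq n).2)
  have hN : AnalyticSet (⋃ i, (fun q : Y × (J → X) × (J → X) => (q.2.1 (e i), q.2.2 (e i))) ''
      ({q : Y × (J → X) × (J → X) | (q.1, q.2.1) ∈ A ∧ (q.1, q.2.2) ∉ A} \ C i)) :=
    AnalyticSet.iUnion fun i => (hD.diff (hC1 i)).analyticSet.image_of_continuous (c i)
  obtain ⟨R, hR1, hR2, hR3⟩ := hEa.measurablySeparable hN (by
    rw [disjoint_left]
    rintro q hq hq2
    obtain ⟨i, ⟨p, ⟨h1, h2⟩, rfl⟩⟩ := mem_iUnion.1 hq2
    exact h2 (hC2 i ⟨h1, hq⟩))
  refine ⟨R, hR3, hR1, fun p y z h hy => ?_⟩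
  by_contra hz
  have : (p, y, z) ∈ ⋂ n, C n := by
    refine mem_iInter.2 fun i => ?_
    by_contra hi
    exact disjoint_left.1 hR2 (mem_iUnion.2 ⟨i, (p, y, z), ⟨⟨hy, hz⟩, hi⟩, rfl⟩) (h (e i))
  rw [hC3] at this
  exact this

/-- A co-countable set of the Cantor space contains a Cantor set. -/
theorem cocountable {D : Set (ℕ → Bool)} (hD : D.Countable) :
    ∃ k : (ℕ → Bool) → (ℕ → Bool), Continuous k ∧ (∀ b, k b ∉ D) ∧ ∀ b b', b ≠ b' → k b ≠ k b' := by
  have hPB := polish_cantor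
  rcases silver (X := ℕ → Bool) (E := fun a b => a = b) ⟨fun _ => rfl, fun h => h.symm,
    fun h h' => h.trans h'⟩ (measurableSet_diagonal)
      (A := Dᶜ) hD.measurableSet.compl.analyticSet with ⟨S, -, hS, hS2⟩ | ⟨h, h1, h2, h3⟩
  · exfalso
    have : (univ : Set (ℕ → Bool)) ⊆ D ∪ S := by
      intro b _
      by_cases hb : b ∈ D
      · exact Or.inl hb
      · obtain ⟨s, hs, rfl⟩ := hS2 b hb
        exact Or.inr hs
    exact not_countable (countable_univ_iff.1 ((hD.union hS).mono this))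
  · exact ⟨h, h1, h2, h3⟩

/-- The main theorem. The labels of the members of `A` are in `Z`; the colourings which are
obtained when the labels are replaced by natural numbers, `x0` by `0`, are in `K`. -/
theorem main (I : Equiv.Perm J → Y → Y → Prop) (hI : ∀ y, I 1 y y) {E : X → X → Prop}
    (hE : Equivalence E) (hEa : AnalyticSet {q : X × X | E q.1 q.2}) (Z : Set X)
    (hX : ∀ C : Set X, MeasurableSet C → C ⊆ Z → (∀ x ∈ C, ∀ x', E x x' → x' ∈ C) → Dc E C)
    (K : Set (Y × (J → ℕ)))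
    (hY : ∀ C : Set (Y × (J → ℕ)), MeasurableSet C → C ⊆ K →
      (∀ p ∈ C, ∀ q, LE I (· = ·) p q → q ∈ C) → Dc (LE I (· = ·)) C)
    (x0 : X) {A : Set (Y × (J → X))} (hA : MeasurableSet A) (hZ : ∀ p ∈ A, ∀ n, p.2 n ∈ Z)
    (hK : ∀ p ∈ A, ∀ κ : J → ℕ, (∀ m n, E (p.2 m) (p.2 n) ↔ κ m = κ n) →
      (∀ n, E x0 (p.2 n) ↔ κ n = 0) → (p.1, κ) ∈ K)
    (hinv : ∀ p ∈ A, ∀ q, LE I E p q → q ∈ A) : Dc (LE I E) A := by
  classical
  obtain ⟨R, hR, hER, hRsw⟩ := swapY hEa hA fun p y z h hy =>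
    hinv (p, y) hy (p, z) ⟨1, hI p, h⟩
  obtain ⟨F, hF, hFm, hEF, hFR⟩ := interp hE hEa hR hER
  have hAF : ∀ (p : Y) (y z : J → X), (∀ i, F (y i) (z i)) → (p, y) ∈ A → (p, z) ∈ A :=
    fun p y z h hy => hRsw p y z (fun i => hFR _ _ (h i)) hy
  have hAa : AnalyticSet A := hA.analyticSet
  have hLJ : ∀ p q : Y × (J → X), LE I E p q → JJ F p.2 q.2 := by
    rintro p q ⟨σ, -, h⟩
    refine ⟨fun i => ⟨σ i, hEF _ _ (h i)⟩, fun j => ⟨σ.symm j, ?_⟩⟩
    have := h (σ.symm j)
    rw [σ.apply_symm_apply] at this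
    exact hEF _ _ this
  have hPB := polish_cantor
  by_cases hP : ∃ i, ∃ h : (ℕ → Bool) → Y × (J → X), Continuous h ∧ (∀ b, h b ∈ A) ∧
      ∀ b b', b ≠ b' → ¬ F ((h b).2 i) ((h b').2 i)
  · right
    obtain ⟨i, h, h1, h2, h3⟩ := hP
    have hJ := JJ_equiv (J := J) hF
    have hh : ∀ i, Continuous fun b => (h b).2 i :=
      fun i => (continuous_apply i).comp (continuous_snd.comp h1)
    rcases silver (X := ℕ → Bool) (E := fun b b' => JJ F (h b).2 (h b').2)
      ⟨fun _ => hJ.refl _, fun h => hJ.symm h, fun h h' => hJ.trans h h'⟩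
      (JJ_meas hFm (f := fun q : (ℕ → Bool) × (ℕ → Bool) => (h q.1).2) (g := fun q => (h q.2).2)
        (fun i => ((hh i).comp continuous_fst).measurable)
        (fun i => ((hh i).comp continuous_snd).measurable))
      (MeasurableSet.univ.analyticSet) with ⟨S, -, hS, hS2⟩ | ⟨g, g1, -, g3⟩
    · exfalso
      have h4 : (univ : Set (ℕ → Bool)) ⊆ ⋃ s ∈ S, ⋃ j : J, {b | F ((h b).2 i) ((h s).2 j)} := by
        intro b _
        obtain ⟨s, hs, hJs⟩ := hS2 b (mem_univ b)
        obtain ⟨j, hj⟩ := hJs.1 i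
        exact mem_biUnion hs (mem_iUnion.2 ⟨j, hj⟩)
      have h5 : (univ : Set (ℕ → Bool)).Countable := by
        refine (hS.biUnion fun s _ => countable_iUnion fun j => ?_).mono h4
        refine Set.Subsingleton.countable ?_
        intro b hb b' hb'
        by_contra hne
        exact h3 b b' hne (hF.trans hb (hF.symm hb'))
      exact not_countable (countable_univ_iff.1 h5)
    · exact ⟨fun b => h (g b), (h1.comp g1).measurable, fun b => h2 _, fun b b' hb hc =>
        g3 b b' hb (hLJ _ _ hc)⟩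
  have hS : ∀ i, ∃ S ⊆ A, S.Countable ∧ ∀ x ∈ A, ∃ y ∈ S, F (x.2 i) (y.2 i) := by
    intro i
    rcases silver (X := Y × (J → X)) (E := fun y z => F (y.2 i) (z.2 i))
      ⟨fun _ => hF.refl _, fun h => hF.symm h, fun h h' => hF.trans h h'⟩
      (meas_rel hFm (f := fun q : (Y × (J → X)) × (Y × (J → X)) => q.1.2 i)
        (g := fun q => q.2.2 i) (by fun_prop) (by fun_prop)) hAa with h | ⟨h, h1, h2, h3⟩
    · exact h
    · exact absurd ⟨i, h, h1, h2, h3⟩ hP
  choose S hSA hSc hS2 using hS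
  by_cases hQ : ∃ p0 ∈ A, ∃ i, ∃ g : (ℕ → Bool) → X, Measurable g ∧
      (∀ b, F (p0.2 i) (g b)) ∧ ∀ b b', b ≠ b' → ¬ E (g b) (g b')
  · right
    obtain ⟨p0, hp0, i, g, g1, g2, g3⟩ := hQ
    let D : Set (ℕ → Bool) := ⋃ j : J, {b | E (g b) (p0.2 j)}
    have hD : D.Countable := by
      refine countable_iUnion fun j => Set.Subsingleton.countable ?_
      intro b hb b' hb'
      by_contra hne
      exact g3 b b' hne (hE.trans hb (hE.symm hb'))
    obtain ⟨k, k1, k2, k3⟩ := cocountable hD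
    refine ⟨fun b => (p0.1, Function.update p0.2 i (g (k b))), ?_, fun b => ?_,
      fun b b' hb => ?_⟩
    · refine measurable_const.prodMk (measurable_pi_lambda _ fun n => ?_)
      by_cases hn : n = i
      · subst hn
        simp only [Function.update_self]
        exact g1.comp k1.measurable
      · simp only [Function.update_of_ne hn]
        exact measurable_const
    · refine hAF p0.1 p0.2 _ (fun n => ?_) hp0
      by_cases hn : n = i
      · subst hn
        rw [Function.update_self]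
        exact g2 _
      · rw [Function.update_of_ne hn]
        exact hF.refl _
    · rintro ⟨σ, -, h⟩
      have := h i
      simp only [Function.update_self] at this
      by_cases hn : σ i = i
      · rw [hn, Function.update_self] at this
        exact g3 _ _ (k3 _ _ hb) this
      · rw [Function.update_of_ne hn] at this
        exact k2 b (mem_iUnion.2 ⟨_, this⟩)
  have hT : ∀ p0 ∈ A, ∀ i, ∃ T : Set X, T.Countable ∧ ∀ x, F (p0.2 i) x → ∃ k ∈ T, E k x := by
    intro p0 hp0 i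
    have hm : MeasurableSet {x | F (p0.2 i) x} :=
      meas_rel hFm (f := fun _ : X => p0.2 i) (g := fun x => x) measurable_const measurable_id
    have hsub : {x | F (p0.2 i) x} ⊆ Z := by
      intro x hx
      have h1 : (p0.1, Function.update p0.2 i x) ∈ A := by
        refine hAF p0.1 p0.2 _ (fun n => ?_) hp0
        by_cases hn : n = i
        · subst hn
          rw [Function.update_self]
          exact hx
        · rw [Function.update_of_ne hn]
          exact hF.refl _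
      have h2 := hZ _ h1 i
      simp only [Function.update_self] at h2
      exact h2
    rcases hX {x | F (p0.2 i) x} hm hsub (fun x hx x' h => hF.trans hx (hEF _ _ h)) with
      ⟨S, -, hS, hS2⟩ | ⟨g, g1, g2, g3⟩
    · refine ⟨S, hS, fun x hx => ?_⟩
      obtain ⟨y, hy, h⟩ := hS2 x hx
      exact ⟨y, hy, hE.symm h⟩
    · exact absurd ⟨p0, hp0, i, g, g1, g2, g3⟩ hQ
  choose! T hTc hT2 using hT
  let U : Set X := insert x0 (⋃ i, ⋃ p ∈ S i, T p i)
  have hUc : U.Countable := (countable_iUnion fun i => (hSc i).biUnion fun p hp =>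
    hTc p (hSA i hp) i).insert _
  have hU : ∀ p ∈ A, ∀ i, ∃ k ∈ U, E k (p.2 i) := by
    intro p hp i
    obtain ⟨z, hz, hzF⟩ := hS2 i p hp
    obtain ⟨k, hk, hkE⟩ := hT2 z (hSA i hz) i (p.2 i) (hF.symm hzF)
    exact ⟨k, Or.inr (mem_iUnion.2 ⟨i, mem_biUnion hz hk⟩), hkE⟩
  obtain ⟨d0, hd0⟩ := hUc.exists_eq_range ⟨x0, Or.inl rfl⟩
  obtain ⟨d, hd1, hd2⟩ : ∃ d : ℕ → X, d 0 = x0 ∧ ∀ x ∈ U, ∃ n, d n = x := by
    refine ⟨fun n => Nat.casesOn n x0 d0, rfl, fun x hx => ?_⟩
    rw [hd0] at hx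
    obtain ⟨n, rfl⟩ := hx
    exact ⟨n + 1, rfl⟩
  -- the least representatives
  let N : Set ℕ := {n | ∀ m, m < n → ¬ E (d m) (d n)}
  have hN0 : 0 ∈ N := fun m hm => absurd hm (Nat.not_lt_zero _)
  have hN : ∀ p ∈ A, ∀ i, ∃ n ∈ N, E (d n) (p.2 i) := by
    intro p hp i
    obtain ⟨k, hk, hkE⟩ := hU p hp i
    obtain ⟨n0, rfl⟩ := hd2 k hk
    have hex : ∃ n, E (d n) (p.2 i) := ⟨n0, hkE⟩
    refine ⟨Nat.find hex, fun m hm hE' => ?_, Nat.find_spec hex⟩
    exact Nat.find_min hex hm (hE.trans hE' (Nat.find_spec hex))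
  have hNE : ∀ m ∈ N, ∀ n ∈ N, E (d m) (d n) → m = n := by
    intro m hm n hn h
    rcases lt_trichotomy m n with h' | h' | h'
    · exact absurd h (hn m h')
    · exact h'
    · exact absurd (hE.symm h) (hm n h')
  let Φ : Y × (J → ℕ) → Y × (J → X) := fun q => (q.1, fun i => d (q.2 i))
  have hΦ : Measurable Φ := by
    refine measurable_fst.prodMk (measurable_pi_lambda _ fun i => ?_)
    exact (measurable_from_top (f := d)).comp ((measurable_pi_apply i).comp measurable_snd)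
  let C : Set (Y × (J → ℕ)) := {q | (∀ i, q.2 i ∈ N) ∧ Φ q ∈ A}
  have hC : MeasurableSet C := by
    refine MeasurableSet.inter ?_ (hΦ hA)
    have : {q : Y × (J → ℕ) | ∀ i, q.2 i ∈ N} = ⋂ i, (fun q : Y × (J → ℕ) => q.2 i) ⁻¹' N := by
      ext q
      simp
    show MeasurableSet {q : Y × (J → ℕ) | ∀ i, q.2 i ∈ N}
    rw [this]
    exact MeasurableSet.iInter fun i =>
      ((measurable_pi_apply i).comp measurable_snd) (MeasurableSet.of_discrete)
  rcases hY C hC (fun q hq => hK (Φ q) hq.2 q.2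
      (fun m n => ⟨fun h => hNE _ (hq.1 m) _ (hq.1 n) h, fun h => by
        show E (d (q.2 m)) (d (q.2 n))
        rw [h]
        exact hE.refl _⟩)
      (fun n => ⟨fun h => by
        have h' : E (d 0) (d (q.2 n)) := by
          rw [hd1]
          exact h
        exact (hNE _ hN0 _ (hq.1 n) h').symm, fun h => by
        show E x0 (d (q.2 n))
        rw [h, hd1]
        exact hE.refl _⟩)) (by
    rintro q ⟨hq1, hq2⟩ q' ⟨σ, h1, h2⟩
    refine ⟨fun i => ?_, hinv _ hq2 _ ⟨σ, h1, fun n => ?_⟩⟩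
    · have := h2 (σ.symm i)
      rw [σ.apply_symm_apply] at this
      rw [← this]
      exact hq1 _
    · show E (d (q.2 n)) (d (q'.2 (σ n)))
      rw [← h2 n]
      exact hE.refl _) with ⟨S0, hS0, hS0c, hS02⟩ | ⟨g, g1, g2, g3⟩
  · left
    refine ⟨Φ '' S0, ?_, hS0c.image _, fun p hp => ?_⟩
    · rintro _ ⟨q, hq, rfl⟩
      exact (hS0 hq).2
    · choose κ hκ1 hκ2 using hN p hp
      have hκC : (p.1, κ) ∈ C := ⟨hκ1, hinv p hp _ ⟨1, hI _, fun n => hE.symm (hκ2 n)⟩⟩
      obtain ⟨q, hq, σ, h1, h2⟩ := hS02 _ hκC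
      refine ⟨Φ q, ⟨q, hq, rfl⟩, σ, h1, fun n => ?_⟩
      have h3 : κ n = q.2 (σ n) := h2 n
      show E (p.2 n) (d (q.2 (σ n)))
      rw [← h3]
      exact hE.symm (hκ2 n)
  · right
    refine ⟨fun b => Φ (g b), hΦ.comp g1, fun b => (g2 b).2, fun b b' hb hL => ?_⟩
    obtain ⟨σ, h1, h2⟩ := hL
    exact g3 b b' hb ⟨σ, h1, fun n => hNE _ ((g2 b).1 n) _ ((g2 b').1 (σ n)) (h2 n)⟩

end

end Pool.Agent.N649.WL
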