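import Pool.Agent.N649.WL.Main

set_option autoImplicit false

/-!
# Countable products of analytic equivalence relations; listing the same classes
-/

namespace Pool.Agent.N649.WL

open Set MeasureTheory
open Pool.Agent.H579R3.SV (interp silver polish_cantor not_countable meas_rel jump J J_equiv)

/-- All invariant Borel sets satisfy the dichotomy. -/
def Dch {X : Type*} [MeasurableSpace X] (E : X → X → Prop) : Prop :=
  ∀ C : Set X, MeasurableSet C → (∀ x ∈ C, ∀ x', E x x' → x' ∈ C) → Dc E C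

/-- Borel equivalence relations (Silver). -/
theorem dch_borel {X : Type*} [TopologicalSpace X] [PolishSpace X] [MeasurableSpace X]
    [BorelSpace X] {E : X → X → Prop} (hE : Equivalence E)
    (hm : MeasurableSet {q : X × X | E q.1 q.2}) : Dch E := by
  intro C hC _
  rcases silver hE hm hC.analyticSet with h | ⟨h, h1, h2, h3⟩
  · exact Or.inl h
  · exact Or.inr ⟨h, h1.measurable, h2, h3⟩

/-- Listing the same classes of an arbitrary analytic equivalence relation. -/
theorem dch_jump {X : Type*} [TopologicalSpace X] [PolishSpace X] [MeasurableSpace X]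
    [BorelSpace X] {E : X → X → Prop} (hE : Equivalence E)
    (hEa : AnalyticSet {q : X × X | E q.1 q.2}) : Dch (J E) := by
  intro C hC hinv
  rcases jump hE hEa hC (fun y z h hy => hinv y hy z h) with h | ⟨h, h1, h2, h3⟩
  · exact Or.inl h
  · exact Or.inr ⟨h, h1.measurable, h2, h3⟩

theorem ana_J {X : Type*} [TopologicalSpace X] [PolishSpace X] [MeasurableSpace X]
    [BorelSpace X] {E : X → X → Prop}
    (hEa : AnalyticSet {q : X × X | E q.1 q.2}) :
    AnalyticSet {q : (ℕ → X) × (ℕ → X) | J E q.1 q.2} := by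
  have e : {q : (ℕ → X) × (ℕ → X) | J E q.1 q.2} =
      ⋂ b : Bool, ⋂ i : ℕ, ⋃ j : ℕ, (fun q : (ℕ → X) × (ℕ → X) =>
        if b = true then (q.1 i, q.2 j) else (q.1 j, q.2 i)) ⁻¹' {q : X × X | E q.1 q.2} := by
    ext q
    simp only [J, mem_iInter, mem_iUnion, mem_preimage, mem_setOf_eq]
    constructor
    · rintro ⟨h1, h2⟩ b i
      cases b
      · obtain ⟨j, hj⟩ := h2 i
        exact ⟨j, hj⟩
      · obtain ⟨j, hj⟩ := h1 i
        exact ⟨j, hj⟩
    · intro h
      exact ⟨fun i => h true i, fun j => h false j⟩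
  rw [e]
  refine AnalyticSet.iInter fun b => AnalyticSet.iInter fun i => AnalyticSet.iUnion fun j =>
    hEa.preimage ?_
  cases b
  · simp only [Bool.false_eq_true, if_false]
    fun_prop
  · simp only [if_true]
    fun_prop

section

variable {X : ℕ → Type} [∀ n, TopologicalSpace (X n)] [∀ n, PolishSpace (X n)]
  [∀ n, MeasurableSpace (X n)] [∀ n, BorelSpace (X n)]

/-- the relation on the labels used for products -/
def EP (E : ∀ n, X n → X n → Prop) (p q : ℕ × (∀ n, X n)) : Prop :=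
  p.1 = q.1 ∧ E p.1 (p.2 p.1) (q.2 p.1)

theorem EP_equiv {E : ∀ n, X n → X n → Prop} (hE : ∀ n, Equivalence (E n)) :
    Equivalence (EP E) where
  refl p := ⟨rfl, (hE _).refl _⟩
  symm := by
    rintro ⟨n, x⟩ ⟨m, y⟩ ⟨h, h'⟩
    simp only at h h'
    subst h
    exact ⟨rfl, (hE _).symm h'⟩
  trans := by
    rintro ⟨n, x⟩ ⟨m, y⟩ ⟨k, z⟩ ⟨h, h'⟩ ⟨h1, h1'⟩
    simp only at h h' h1 h1'
    subst h
    subst h1
    exact ⟨rfl, (hE _).trans h' h1'⟩

theorem EP_ana {E : ∀ n, X n → X n → Prop}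
    (hEa : ∀ n, AnalyticSet {q : X n × X n | E n q.1 q.2}) :
    AnalyticSet {q : (ℕ × (∀ n, X n)) × (ℕ × (∀ n, X n)) | EP E q.1 q.2} := by
  have e : {q : (ℕ × (∀ n, X n)) × (ℕ × (∀ n, X n)) | EP E q.1 q.2} =
      ⋃ n : ℕ, ({q | q.1.1 = n ∧ q.2.1 = n} ∩
        (fun q : (ℕ × (∀ n, X n)) × (ℕ × (∀ n, X n)) => (q.1.2 n, q.2.2 n)) ⁻¹'
          {q : X n × X n | E n q.1 q.2}) := by
    ext ⟨⟨n, x⟩, ⟨m, y⟩⟩
    simp only [EP, mem_iUnion, mem_inter_iff, mem_preimage, mem_setOf_eq]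
    constructor
    · rintro ⟨h, h'⟩
      subst h
      exact ⟨n, ⟨rfl, rfl⟩, h'⟩
    · rintro ⟨k, ⟨h1, h2⟩, h3⟩
      subst h1
      subst h2
      exact ⟨rfl, h3⟩
  rw [e]
  refine AnalyticSet.iUnion fun n => Pool.Agent.H579R3.SV.ana_inter ?_ ((hEa n).preimage ?_)
  · refine MeasurableSet.analyticSet ?_
    have m1 : Measurable fun q : (ℕ × (∀ n, X n)) × (ℕ × (∀ n, X n)) => q.1.1 := by fun_prop
    have m2 : Measurable fun q : (ℕ × (∀ n, X n)) × (ℕ × (∀ n, X n)) => q.2.1 := by fun_prop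
    exact (m1 (measurableSet_singleton n)).inter (m2 (measurableSet_singleton n))
  · fun_prop

theorem EP_dch {E : ∀ n, X n → X n → Prop} (hE : ∀ n, Equivalence (E n)) (x0 : ∀ n, X n)
    (hX : ∀ n, Dch (E n)) : Dch (EP E) := by
  intro C hC hinv
  let u : ∀ n, X n → ℕ × (∀ n, X n) := fun n x => (n, Function.update x0 n x)
  have hu : ∀ n, Measurable (u n) := fun n =>
    measurable_const.prodMk (measurable_update x0)
  have hun : ∀ n x, (u n x).2 n = x := fun n x => Function.update_self _ _ _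
  have hCn : ∀ n, Dc (E n) (u n ⁻¹' C) := by
    intro n
    refine hX n _ (hu n hC) fun x hx x' h => ?_
    refine hinv _ hx _ ⟨rfl, ?_⟩
    show E n ((u n x).2 n) ((u n x').2 n)
    rw [hun, hun]
    exact h
  by_cases hp : ∃ n, ∃ h : (ℕ → Bool) → X n, Measurable h ∧ (∀ b, h b ∈ u n ⁻¹' C) ∧
      ∀ b b', b ≠ b' → ¬ E n (h b) (h b')
  · obtain ⟨n, h, h1, h2, h3⟩ := hp
    right
    refine ⟨fun b => u n (h b), (hu n).comp h1, h2, fun b b' hb hE' => h3 b b' hb ?_⟩
    have := hE'.2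
    rw [show (u n (h b)).1 = n from rfl, hun, hun] at this
    exact this
  · have hc : ∀ n, ∃ S ⊆ u n ⁻¹' C, S.Countable ∧ ∀ x ∈ u n ⁻¹' C, ∃ y ∈ S, E n x y := by
      intro n
      rcases hCn n with h | ⟨h, h1, h2, h3⟩
      · exact h
      · exact absurd ⟨n, h, h1, h2, h3⟩ hp
    choose S hS1 hS2 hS3 using hc
    left
    refine ⟨⋃ n, u n '' S n, ?_, countable_iUnion fun n => (hS2 n).image _, ?_⟩
    · refine iUnion_subset fun n => ?_
      rintro _ ⟨x, hx, rfl⟩
      exact hS1 n hx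
    · rintro ⟨n, x⟩ hx
      have h1 : x n ∈ u n ⁻¹' C := by
        refine hinv _ hx _ ⟨rfl, ?_⟩
        show E n (x n) ((u n (x n)).2 n)
        rw [hun]
        exact (hE n).refl _
      obtain ⟨y, hy, h2⟩ := hS3 n _ h1
      refine ⟨u n y, mem_iUnion.2 ⟨n, y, hy, rfl⟩, rfl, ?_⟩
      show E n (x n) ((u n y).2 n)
      rw [hun]
      exact h2

/-- Countable products. -/
theorem dch_pi {E : ∀ n, X n → X n → Prop} (hE : ∀ n, Equivalence (E n))
    (hEa : ∀ n, AnalyticSet {q : X n × X n | E n q.1 q.2}) (hX : ∀ n, Dch (E n)) :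
    Dch (fun x y : ∀ n, X n => ∀ n, E n (x n) (y n)) := by
  intro A hA hinv
  rcases A.eq_empty_or_nonempty with hAe | ⟨x0, hx0⟩
  · left
    exact ⟨∅, empty_subset _, countable_empty, fun x hx => by rw [hAe] at hx; exact hx.elim⟩
  let I : Equiv.Perm ℕ → PUnit.{1} → PUnit.{1} → Prop := fun σ _ _ => σ = 1
  let dn : PUnit.{1} × (ℕ → ℕ × (∀ n, X n)) → ∀ n, X n := fun p n => (p.2 n).2 n
  let up : (∀ n, X n) → PUnit.{1} × (ℕ → ℕ × (∀ n, X n)) := fun x => (PUnit.unit, fun n => (n, x))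
  have hdn : Measurable dn := measurable_pi_lambda _ fun n =>
    (measurable_pi_apply n).comp (measurable_snd.comp
      ((measurable_pi_apply n).comp measurable_snd))
  have hup : Measurable up := measurable_const.prodMk (measurable_pi_lambda _ fun n =>
    measurable_const.prodMk measurable_id)
  let A' : Set (PUnit.{1} × (ℕ → ℕ × (∀ n, X n))) := {p | (∀ n, (p.2 n).1 = n) ∧ dn p ∈ A}
  have hA' : MeasurableSet A' := by
    refine MeasurableSet.inter ?_ (hdn hA)
    have : {p : PUnit.{1} × (ℕ → ℕ × (∀ n, X n)) | ∀ n, (p.2 n).1 = n} =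
        ⋂ n, (fun p : PUnit.{1} × (ℕ → ℕ × (∀ n, X n)) => (p.2 n).1) ⁻¹' {n} := by
      ext p
      simp
    show MeasurableSet {p : PUnit.{1} × (ℕ → ℕ × (∀ n, X n)) | ∀ n, (p.2 n).1 = n}
    rw [this]
    exact MeasurableSet.iInter fun n => (measurable_fst.comp
      ((measurable_pi_apply n).comp measurable_snd)) (measurableSet_singleton n)
  have key := main (Y := PUnit.{1}) (J := ℕ) I (fun _ => rfl) (EP_equiv hE) (EP_ana hEa) univ
    (fun C h1 _ h2 => EP_dch hE x0 hX C h1 h2) univ (by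
      intro C hC _ _
      have hb := dch_borel (X := PUnit.{1} × (ℕ → ℕ)) (E := fun p q => p = q)
        ⟨fun _ => rfl, fun h => h.symm, fun h h' => h.trans h'⟩ measurableSet_diagonal C hC
        (fun x hx x' h => h ▸ hx)
      rcases hb with ⟨S, h1, h2, h3⟩ | ⟨h, h1, h2, h3⟩
      · refine Or.inl ⟨S, h1, h2, fun x hx => ?_⟩
        obtain ⟨y, hy, rfl⟩ := h3 x hx
        exact ⟨x, hy, 1, rfl, fun n => rfl⟩
      · refine Or.inr ⟨h, h1, h2, fun b b' hb hL => h3 b b' hb ?_⟩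
        obtain ⟨σ, h4, h5⟩ := hL
        have h6 : σ = 1 := h4
        subst h6
        exact Prod.ext rfl (funext fun n => h5 n))
    (0, x0) hA' (fun _ _ _ => mem_univ _) (fun _ _ _ _ _ => mem_univ _) (by
      rintro p ⟨h1, h2⟩ q ⟨σ, h3, h4⟩
      have h6 : σ = 1 := h3
      subst h6
      have h7 : ∀ n, (q.2 n).1 = n := fun n => by
        have := (h4 n).1
        rw [h1 n] at this
        exact this.symm
      refine ⟨h7, hinv _ h2 _ fun n => ?_⟩
      have := (h4 n).2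
      rw [h1 n] at this
      exact this)
  rcases key with ⟨S, h1, h2, h3⟩ | ⟨h, h1, h2, h3⟩
  · left
    refine ⟨dn '' S, ?_, h2.image _, fun x hx => ?_⟩
    · rintro _ ⟨p, hp, rfl⟩
      exact (h1 hp).2
    · obtain ⟨q, hq, σ, h4, h5⟩ := h3 (up x) ⟨fun n => rfl, hx⟩
      have h6 : σ = 1 := h4
      subst h6
      exact ⟨dn q, ⟨q, hq, rfl⟩, fun n => (h5 n).2⟩
  · right
    refine ⟨fun b => dn (h b), hdn.comp h1, fun b => (h2 b).2, fun b b' hb hL => h3 b b' hb ?_⟩
    refine ⟨1, rfl, fun n => ⟨?_, ?_⟩⟩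
    · show ((h b).2 n).1 = ((h b').2 n).1
      rw [(h2 b).1 n, (h2 b').1 n]
    · have := hL n
      show E ((h b).2 n).1 _ _
      rw [(h2 b).1 n]
      exact this

end

end Pool.Agent.N649.WL
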