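import Pool.Agent.N649.WL.Code
import Pool.Agent.H533R2.VO.Spec
import Pool.Agent.H899R2.VP.Logic

set_option autoImplicit false

/-!
# Structures whose tuples are labelled
-/

namespace Pool.Agent.N649.WL

open Set MeasureTheory
open Pool.Agent.H533R2.VO (RS RIso VC Dich)

/-- the tuples -/
abbrev Tp (a : ℕ → ℕ) : Type := Σ i : ℕ, (Fin (a i) → ℕ)

/-- the arities of the split structures -/
abbrev sa (a : ℕ → ℕ) : ℕ → ℕ := fun k => a k.unpair.1

variable {a : ℕ → ℕ}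

/-- Each relation is split according to the colour of its tuples. -/
def split (κ : Tp a → ℕ) : RS (sa a) := fun k v => decide (κ ⟨k.unpair.1, v⟩ = k.unpair.2 + 1)

/-- the action on tuples -/
def lift (a : ℕ → ℕ) (σ : Equiv.Perm ℕ) : Equiv.Perm (Tp a) where
  toFun t := ⟨t.1, ⇑σ ∘ t.2⟩
  invFun t := ⟨t.1, ⇑σ.symm ∘ t.2⟩
  left_inv := by
    rintro ⟨i, v⟩
    exact Sigma.ext rfl (heq_of_eq (funext fun j => σ.symm_apply_apply (v j)))
  right_inv := by
    rintro ⟨i, v⟩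
    exact Sigma.ext rfl (heq_of_eq (funext fun j => σ.apply_symm_apply (v j)))

/-- isomorphism and its action on the tuples -/
def IT (τ : Equiv.Perm (Tp a)) (y y' : RS a) : Prop :=
  ∃ σ : Equiv.Perm ℕ, (∀ i v, y' i (⇑σ ∘ v) = y i v) ∧ τ = lift a σ

theorem tup_exists (t : Tp a) (n : ℕ) :
    ∃ v' : Fin (a (Nat.unpair (Nat.pair t.1 n)).1) → ℕ,
      (⟨(Nat.unpair (Nat.pair t.1 n)).1, v'⟩ : Tp a) = t := by
  have h := congrArg Prod.fst (Nat.unpair_pair t.1 n)
  simp only at h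
  generalize (Nat.unpair (Nat.pair t.1 n)).1 = u at *
  subst h
  exact ⟨t.2, rfl⟩

theorem split_iff (κ κ' : Tp a → ℕ) (σ : Equiv.Perm ℕ) :
    (∀ k v, split κ' k (⇑σ ∘ v) = split κ k v) ↔ ∀ t, κ t = κ' (lift a σ t) := by
  constructor
  · intro h t
    have key : ∀ n, κ' (lift a σ t) = n + 1 ↔ κ t = n + 1 := by
      intro n
      obtain ⟨v', hv'⟩ := tup_exists t n
      have := h (Nat.pair t.1 n) v'
      simp only [split, decide_eq_decide] at this
      have e2 : (Nat.unpair (Nat.pair t.1 n)).2 = n := by rw [Nat.unpair_pair]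
      rw [e2] at this
      have e3 : (⟨(Nat.unpair (Nat.pair t.1 n)).1, ⇑σ ∘ v'⟩ : Tp a) = lift a σ t :=
        congrArg (lift a σ) hv'
      rw [e3] at this
      rw [this]
      rw [hv']
    rcases h1 : κ t with _ | n
    · rcases h2 : κ' (lift a σ t) with _ | n
      · rfl
      · have := (key n).1 h2
        rw [h1] at this
        exact this
    · exact ((key n).2 h1).symm
  · intro h k v
    have := h ⟨k.unpair.1, v⟩
    show decide (κ' (lift a σ ⟨k.unpair.1, v⟩) = _) = decide (κ ⟨k.unpair.1, v⟩ = _)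
    rw [this]

theorem split_inj : Function.Injective (split : (Tp a → ℕ) → RS (sa a)) := by
  intro κ κ' h
  have := (split_iff κ κ' 1).1 (by
    intro k v
    rw [h]
    rfl)
  funext t
  exact this t

theorem split_cont : Continuous (split : (Tp a → ℕ) → RS (sa a)) := by
  refine continuous_pi fun k => continuous_pi fun v => ?_
  exact (continuous_of_discreteTopology (f := fun m : ℕ => decide (m = k.unpair.2 + 1))).comp
    (continuous_apply _)

theorem split_emb : MeasurableEmbedding (split : (Tp a → ℕ) → RS (sa a)) :=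
  split_cont.measurableEmbedding split_inj

/-- the tuples of nonzero colour -/
def supp (κ : Tp a → ℕ) : RS a := fun i v => decide (κ ⟨i, v⟩ ≠ 0)

theorem supp_cont : Continuous (supp : (Tp a → ℕ) → RS a) := by
  refine continuous_pi fun i => continuous_pi fun v => ?_
  exact (continuous_of_discreteTopology (f := fun m : ℕ => decide (m ≠ 0))).comp
    (continuous_apply _)

theorem riso_symm {x y : RS a} (h : RIso x y) : RIso y x := by
  obtain ⟨σ, h1⟩ := h
  refine ⟨σ.symm, fun i v => ?_⟩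
  have e : ⇑σ ∘ (⇑σ.symm ∘ v) = v := funext fun j => σ.apply_symm_apply (v j)
  rw [← h1 i (⇑σ.symm ∘ v), e]

theorem riso_trans {x y z : RS a} (h : RIso x y) (h' : RIso y z) : RIso x z := by
  obtain ⟨σ, h1⟩ := h
  obtain ⟨τ, h3⟩ := h'
  refine ⟨σ.trans τ, fun i v => ?_⟩
  rw [← h1 i v, ← h3 i (⇑σ ∘ v)]
  rfl

/-- Every Borel isomorphism-invariant subclass of `W` satisfies the dichotomy. -/
def DW {b : ℕ → ℕ} (W : RS b → Prop) : Prop := ∀ B : Set (RS b), MeasurableSet B →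
  (∀ x ∈ B, W x) → (∀ x ∈ B, ∀ y, RIso x y → y ∈ B) → Dc RIso B

theorem dw_of_vc {b : ℕ → ℕ} {W : RS b → Prop} (hW : VC W) : DW W := by
  intro B hB hBW hinv
  exact dc_weak (R := RIso) (fun _ _ h => riso_symm h) (fun _ _ _ h h' => riso_trans h h') (hW B hB
    (fun x y h => ⟨fun hx => hinv x hx y h, fun hy => hinv y hy x (riso_symm h)⟩) hBW)

theorem dc_of_dw {W : RS (sa a) → Prop} (hW : DW W) {C : Set (RS a × (Tp a → ℕ))}
    (hC : MeasurableSet C)
    (hCK : ∀ q ∈ C, q.1 = supp q.2 ∧ W (split q.2))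
    (hinv : ∀ p ∈ C, ∀ q, LE IT (· = ·) p q → q ∈ C) : Dc (LE IT (· = ·)) C := by
  let u : (Tp a → ℕ) → RS a × (Tp a → ℕ) := fun κ => (supp κ, κ)
  have hu : Measurable u := supp_cont.measurable.prodMk measurable_id
  have hLE : ∀ κ κ' : Tp a → ℕ, RIso (split κ) (split κ') ↔ LE IT (· = ·) (u κ) (u κ') := by
    intro κ κ'
    constructor
    · rintro ⟨σ, h⟩
      have h2 := (split_iff κ κ' σ).1 h
      refine ⟨lift a σ, ⟨σ, fun i v => ?_, rfl⟩, h2⟩
      show decide (κ' (lift a σ ⟨i, v⟩) ≠ 0) = decide (κ ⟨i, v⟩ ≠ 0)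
      rw [h2]
    · rintro ⟨τ, ⟨σ, h1, rfl⟩, h2⟩
      exact ⟨σ, (split_iff κ κ' σ).2 h2⟩
  have key : Dc (fun κ κ' => LE IT (· = ·) (u κ) (u κ')) (u ⁻¹' C) := by
    refine dc_code split_cont split_inj (R' := RIso) hLE ?_ (fun _ _ => riso_symm)
      (fun _ _ _ => riso_trans) (hu hC) (fun κ hκ κ' h => hinv _ hκ _ h) fun h1 h2 => ?_
    · rintro κ y ⟨σ, h⟩
      let κ' : Tp a → ℕ := fun t => κ ((lift a σ).symm t)
      have h2 : ∀ t, κ t = κ' (lift a σ t) := fun t => by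
        show κ t = κ ((lift a σ).symm (lift a σ t))
        rw [Equiv.symm_apply_apply]
      have h3 := (split_iff κ κ' σ).2 h2
      refine ⟨κ', ?_⟩
      funext k v
      have e : ⇑σ ∘ (⇑σ.symm ∘ v) = v := funext fun j => σ.apply_symm_apply (v j)
      have h5 := h3 k (⇑σ.symm ∘ v)
      have h6 := h k (⇑σ.symm ∘ v)
      rw [e] at h5 h6
      rw [h5, h6]
    · refine dc_strong (fun _ _ => riso_symm) (fun _ _ => false) (hW _ h1 ?_ h2)
      rintro _ ⟨κ, hκ, rfl⟩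
      exact (hCK _ hκ).2
  have hCu : ∀ p ∈ C, p = u p.2 := fun p hp => Prod.ext (hCK p hp).1 rfl
  rcases key with ⟨S, h1, h2, h3⟩ | ⟨h, h1, h2, h3⟩
  · left
    refine ⟨u '' S, ?_, h2.image _, fun p hp => ?_⟩
    · rintro _ ⟨κ, hκ, rfl⟩
      exact h1 hκ
    · have hp' := hCu p hp
      obtain ⟨κ, hκ, hL⟩ := h3 p.2 (by
        show u p.2 ∈ C
        rw [← hp']
        exact hp)
      refine ⟨u κ, ⟨κ, hκ, rfl⟩, ?_⟩
      rw [hp']
      exact hL
  · exact Or.inr ⟨fun b => u (h b), hu.comp h1, h2, h3⟩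

section

variable {X : Type*} [TopologicalSpace X] [PolishSpace X] [MeasurableSpace X] [BorelSpace X]

/-- Isomorphism of structures with labelled tuples. The labels of the tuples which are not in the
relation do not count. -/
def LT (E : X → X → Prop) (p q : RS a × (Tp a → X)) : Prop :=
  ∃ σ : Equiv.Perm ℕ, (∀ i v, q.1 i (⇑σ ∘ v) = p.1 i v) ∧
    ∀ i v, p.1 i v = true → E (p.2 ⟨i, v⟩) (q.2 ⟨i, ⇑σ ∘ v⟩)

/-- labels with a dummy label -/
def EB (E : X → X → Prop) (p q : X × Bool) : Prop := p.2 = q.2 ∧ (p.2 = true → E p.1 q.1)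

theorem EB_equiv {E : X → X → Prop} (hE : Equivalence E) : Equivalence (EB E) where
  refl p := ⟨rfl, fun _ => hE.refl _⟩
  symm := by
    rintro ⟨x, b⟩ ⟨y, c⟩ ⟨h, h'⟩
    simp only at h h'
    subst h
    exact ⟨rfl, fun h => hE.symm (h' h)⟩
  trans := by
    rintro ⟨x, b⟩ ⟨y, c⟩ ⟨z, d⟩ ⟨h, h'⟩ ⟨h1, h1'⟩
    simp only at h h' h1 h1'
    subst h
    subst h1
    exact ⟨rfl, fun h => hE.trans (h' h) (h1' h)⟩

theorem EB_ana {E : X → X → Prop} (hEa : AnalyticSet {q : X × X | E q.1 q.2}) :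
    AnalyticSet {q : (X × Bool) × (X × Bool) | EB E q.1 q.2} := by
  have e : {q : (X × Bool) × (X × Bool) | EB E q.1 q.2} =
      ⋃ b : Bool, (if b = true then {q : (X × Bool) × (X × Bool) | q.1.2 = false ∧ q.2.2 = false}
        else ({q : (X × Bool) × (X × Bool) | q.1.2 = true ∧ q.2.2 = true} ∩
          (fun q : (X × Bool) × (X × Bool) => (q.1.1, q.2.1)) ⁻¹' {q : X × X | E q.1 q.2})) := by
    ext ⟨⟨x, b⟩, ⟨y, c⟩⟩
    simp only [EB, mem_iUnion, Bool.exists_bool, Bool.false_eq_true, if_false, if_true,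
      mem_inter_iff, mem_preimage, mem_ofPred_eq]
    cases b <;> cases c <;> simp
  rw [e]
  have m1 : Measurable fun q : (X × Bool) × (X × Bool) => q.1.2 := by fun_prop
  have m2 : Measurable fun q : (X × Bool) × (X × Bool) => q.2.2 := by fun_prop
  refine AnalyticSet.iUnion fun b => ?_
  cases b
  · rw [if_neg (by decide)]
    refine Pool.Agent.H579R3.SV.ana_inter ?_ (hEa.preimage (by fun_prop))
    exact ((m1 (measurableSet_singleton true)).inter
      (m2 (measurableSet_singleton true))).analyticSet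
  · rw [if_pos rfl]
    exact ((m1 (measurableSet_singleton false)).inter
      (m2 (measurableSet_singleton false))).analyticSet

theorem EB_dc {E : X → X → Prop} (Z : Set X)
    (hX : ∀ C : Set X, MeasurableSet C → C ⊆ Z → (∀ x ∈ C, ∀ x', E x x' → x' ∈ C) → Dc E C)
    {C : Set (X × Bool)} (hC : MeasurableSet C) (hCZ : ∀ p ∈ C, p.2 = true → p.1 ∈ Z)
    (hinv : ∀ p ∈ C, ∀ q, EB E p q → q ∈ C) : Dc (EB E) C := by
  have hm : Measurable fun x : X => (x, true) := measurable_id.prodMk measurable_const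
  rcases hX {x | (x, true) ∈ C} (hm hC) (fun x hx => hCZ _ hx rfl)
    (fun x hx x' h => hinv _ hx _ ⟨rfl, fun _ => h⟩) with ⟨S, h1, h2, h3⟩ | ⟨h, h1, h2, h3⟩
  · left
    by_cases hf : ∃ x, (x, false) ∈ C
    · obtain ⟨x, hx⟩ := hf
      refine ⟨insert (x, false) ((fun x => (x, true)) '' S), ?_, (h2.image _).insert _, ?_⟩
      · rintro _ (rfl | ⟨y, hy, rfl⟩)
        · exact hx
        · exact h1 hy
      · rintro ⟨y, b⟩ hy
        cases b
        · exact ⟨_, Or.inl rfl, rfl, fun h => Bool.noConfusion h⟩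
        · obtain ⟨z, hz, h4⟩ := h3 y hy
          exact ⟨_, Or.inr ⟨z, hz, rfl⟩, rfl, fun _ => h4⟩
    · refine ⟨(fun x => (x, true)) '' S, ?_, h2.image _, ?_⟩
      · rintro _ ⟨y, hy, rfl⟩
        exact h1 hy
      · rintro ⟨y, b⟩ hy
        cases b
        · exact absurd ⟨y, hy⟩ hf
        · obtain ⟨z, hz, h4⟩ := h3 y hy
          exact ⟨_, ⟨z, hz, rfl⟩, rfl, fun _ => h4⟩
  · right
    exact ⟨fun b => (h b, true), h1.prodMk measurable_const, h2,
      fun b b' hb hL => h3 b b' hb (hL.2 rfl)⟩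

/-- Structures whose tuples are labelled. -/
theorem labelledT {W : RS (sa a) → Prop} (hW : DW W) {E : X → X → Prop}
    (hE : Equivalence E) (hEa : AnalyticSet {q : X × X | E q.1 q.2}) (Z : Set X)
    (hX : ∀ C : Set X, MeasurableSet C → C ⊆ Z → (∀ x ∈ C, ∀ x', E x x' → x' ∈ C) → Dc E C)
    {A : Set (RS a × (Tp a → X))} (hA : MeasurableSet A)
    (hAW : ∀ p ∈ A, ∀ κ : Tp a → ℕ, (∀ i v, p.1 i v = true ↔ κ ⟨i, v⟩ ≠ 0) →
      (∀ s t : Tp a, p.1 s.1 s.2 = true → p.1 t.1 t.2 = true →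
        (E (p.2 s) (p.2 t) ↔ κ s = κ t)) → W (split κ))
    (hZ : ∀ p ∈ A, ∀ i v, p.1 i v = true → p.2 ⟨i, v⟩ ∈ Z)
    (hinv : ∀ p ∈ A, ∀ q, LT E p q → q ∈ A) : Dc (LT E) A := by
  rcases A.eq_empty_or_nonempty with hAe | ⟨a0, ha0⟩
  · left
    exact ⟨∅, empty_subset _, countable_empty, fun x hx => by rw [hAe] at hx; exact hx.elim⟩
  have t0 : Tp a := ⟨0, fun _ => 0⟩
  have : Nonempty (Tp a) := ⟨t0⟩
  let dn : RS a × (Tp a → X × Bool) → RS a × (Tp a → X) := fun p => (p.1, fun t => (p.2 t).1)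
  let up : RS a × (Tp a → X) → RS a × (Tp a → X × Bool) :=
    fun p => (p.1, fun t => (p.2 t, p.1 t.1 t.2))
  have mt : ∀ t : Tp a, Measurable fun M : RS a => M t.1 t.2 := fun t =>
    (measurable_pi_apply t.2).comp (measurable_pi_apply t.1)
  have hdn : Measurable dn := measurable_fst.prodMk (measurable_pi_lambda _ fun t =>
    measurable_fst.comp ((measurable_pi_apply t).comp measurable_snd))
  have hup : Measurable up := measurable_fst.prodMk (measurable_pi_lambda _ fun t =>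
    ((measurable_pi_apply t).comp measurable_snd).prodMk ((mt t).comp measurable_fst))
  let A' : Set (RS a × (Tp a → X × Bool)) := {p | (∀ t : Tp a, p.1 t.1 t.2 = (p.2 t).2) ∧ dn p ∈ A}
  have hA' : MeasurableSet A' := by
    refine MeasurableSet.inter ?_ (hdn hA)
    have : {p : RS a × (Tp a → X × Bool) | ∀ t : Tp a, p.1 t.1 t.2 = (p.2 t).2} =
        ⋂ t : Tp a, {p : RS a × (Tp a → X × Bool) | p.1 t.1 t.2 = (p.2 t).2} := by
      ext p
      simp
    show MeasurableSet {p : RS a × (Tp a → X × Bool) | ∀ t : Tp a, p.1 t.1 t.2 = (p.2 t).2}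
    rw [this]
    exact MeasurableSet.iInter fun t => measurableSet_eq_fun ((mt t).comp measurable_fst)
      (measurable_snd.comp ((measurable_pi_apply t).comp measurable_snd))
  have hL1 : ∀ p ∈ A', ∀ q, LE IT (EB E) p q → LT E (dn p) (dn q) := by
    rintro p hp q ⟨τ, ⟨σ, h1, rfl⟩, h2⟩
    refine ⟨σ, h1, fun i v hv => ?_⟩
    refine (h2 ⟨i, v⟩).2 ?_
    rw [← hp.1 ⟨i, v⟩]
    exact hv
  have hL2 : ∀ p ∈ A', ∀ q ∈ A', LT E (dn p) (dn q) → LE IT (EB E) p q := by
    rintro p hp q hq ⟨σ, h1, h2⟩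
    have h3 : ∀ t : Tp a, (p.2 t).2 = (q.2 (lift a σ t)).2 := by
      intro t
      rw [← hp.1 t, ← hq.1 (lift a σ t)]
      exact (h1 t.1 t.2).symm
    refine ⟨lift a σ, ⟨σ, h1, rfl⟩, fun t => ⟨h3 t, fun ht => ?_⟩⟩
    rw [← hp.1 t] at ht
    exact h2 t.1 t.2 ht
  have hupA : ∀ p ∈ A, up p ∈ A' := fun p hp => ⟨fun t => rfl, hp⟩
  have key := main (Y := RS a) (J := Tp a) (X := X × Bool) IT
    (fun y => ⟨1, fun i v => rfl, Equiv.ext fun t => rfl⟩) (EB_equiv hE) (EB_ana hEa)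
    {p | p.2 = true → p.1 ∈ Z} (fun C h1 h2 h3 => EB_dc Z hX h1 (fun p hp => h2 hp) h3)
    {q | q.1 = supp q.2 ∧ W (split q.2)} (fun C h1 h2 h3 => dc_of_dw hW h1 (fun q hq => h2 hq) h3)
    (a0.2 t0, false) hA' (by
      rintro p hp ⟨i, v⟩ h
      refine hZ (dn p) hp.2 i v ?_
      show p.1 i v = true
      rw [hp.1 ⟨i, v⟩]
      exact h) (by
      rintro p hp κ h1 h2
      have h3 : ∀ i v, p.1 i v = true ↔ κ ⟨i, v⟩ ≠ 0 := by
        intro i v
        rw [hp.1 ⟨i, v⟩, ne_eq, ← h2]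
        simp [EB]
      refine ⟨?_, hAW (dn p) hp.2 κ h3 fun s t hs ht => ?_⟩
      · funext i v
        show p.1 i v = decide (κ ⟨i, v⟩ ≠ 0)
        rw [Bool.eq_iff_iff, decide_eq_true_iff]
        exact h3 i v
      · have hs' : (p.2 s).2 = true := by
          rw [← hp.1 s]
          exact hs
        have ht' : (p.2 t).2 = true := by
          rw [← hp.1 t]
          exact ht
        rw [← h1 s t]
        exact ⟨fun h => ⟨hs'.trans ht'.symm, fun _ => h⟩, fun h => h.2 hs'⟩) (by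
      rintro p hp q hL
      obtain ⟨τ, ⟨σ, h1, h4⟩, h2⟩ := hL
      refine ⟨fun t => ?_, hinv _ hp.2 _ (hL1 p hp q ⟨τ, ⟨σ, h1, h4⟩, h2⟩)⟩
      subst h4
      have h5 := h1 ((lift a σ).symm t).1 ((lift a σ).symm t).2
      have h6 := (h2 ((lift a σ).symm t)).1
      rw [Equiv.apply_symm_apply] at h6
      rw [← h6, ← hp.1, ← h5]
      have e : ⇑σ ∘ ((lift a σ).symm t).2 = t.2 := by
        funext j
        exact σ.apply_symm_apply (t.2 j)
      rw [e]
      rfl)
  rcases key with ⟨S, h1, h2, h3⟩ | ⟨h, h1, h2, h3⟩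
  · left
    refine ⟨dn '' S, ?_, h2.image _, fun p hp => ?_⟩
    · rintro _ ⟨q, hq, rfl⟩
      exact (h1 hq).2
    · obtain ⟨q, hq, hL⟩ := h3 (up p) (hupA p hp)
      exact ⟨dn q, ⟨q, hq, rfl⟩, hL1 (up p) (hupA p hp) q hL⟩
  · right
    exact ⟨fun b => dn (h b), hdn.comp h1, fun b => (h2 b).2,
      fun b b' hb hL => h3 b b' hb (hL2 _ (h2 b) _ (h2 b') hL)⟩

end

end Pool.Agent.N649.WL
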